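import Mathlib
import Pool.Agent.U181.PF.Main

/-!
# Profinite rigidity of `SL (n, ℤ)` among the quotients of `Aut (F_m)`, for `n` beyond `m`

Let `SAut (F_m)` be the subgroup of `Aut (F_m)` generated by the transvections, `m ≥ 5`, and let `Λ`
be a residually finite quotient of `Aut (F_m)` or of `SAut (F_m)` with the same finite quotients as
`SL (n, ℤ)`, `n ≥ 3`. If `n ≤ m`, or `n < binom ([(m - 1) / 2] - 5, 2)`, or `m ≥ 49` and
`n < binom (m - 7, 2)`, then `m = n` and `Λ` is isomorphic to `SL (n, ℤ)`. The case `n ≤ m` for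
quotients of `SAut (F_m)` is the earlier result `QuotientsOfSAut`.

Steps of the proof.
(1) `Λ` has no finite abelian quotient, and `SAut (F_m)` has index `2` in `Aut (F_m)`; so `Λ` is a
quotient of `SAut (F_m)`.
(2) Let `p` be a large prime. Then `SAut (F_m)` maps onto `SL (n, F_p)`; let `V` be the
corresponding representation of degree `n`. There is an embedding of `Aut (F_(m-1))` in
`SAut (F_m)`, which sends `x_m` to `x_m` or its inverse according to the determinant. The
restriction of `V` to `Aut (F_(m-1))` has small degree, so by the library `W7h60/QR` products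
`(ρ (τ) - 1) (ρ (τ') - 1)` vanish for transvections `τ`, `τ'` with disjoint supports. By
conjugation the same is true for all transvections `τ`, `τ'` in `SAut (F_m)` with disjoint supports.
(3) These relations hold also for the representation of `Aut (F_m)` which is coinduced from `V`. By
the library `W7h60/QR` every product of transvections whose Fox Jacobian is trivial modulo `p` and
modulo the square of the augmentation ideal acts trivially on it, and so on `V`.
(4) A commutator of two automorphisms which act trivially on the abelianisation of `F_m` is of this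
kind. So the image in `PSL (n, F_p)` of the kernel of `SAut (F_m) → SL (m, ℤ)` is an abelian normal
subgroup, and it is trivial. Therefore `SL (m, ℤ)` maps onto `PSL (n, F_p)`.
(5) By the congruence subgroup property, the kernel is the group of the matrices which are scalar
modulo a prime `q`; a count of characters gives `q = p` and a comparison of orders `n = m`
(library `U943/PR`). So we are in the known case `n ≤ m` (library `Helper460_PR`).
-/

set_option autoImplicit false

namespace Pool.Agent.Results.MP_a2a22c_al.LargerDegrees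

open Pool.Agent.Helper460_PR (SA ro la ro_self ro_ne la_self la_ne)

/-- `τ` is a Nielsen transvection: for some `i ≠ j` it maps `x_i` to `x_i x_j` or to `x_j x_i` and
fixes the other generators. -/
def IsTransvection {m : ℕ} (τ : MulAut (FreeGroup (Fin m))) : Prop :=
  ∃ i j : Fin m, i ≠ j ∧
    (τ (FreeGroup.of i) = FreeGroup.of i * FreeGroup.of j ∨
      τ (FreeGroup.of i) = FreeGroup.of j * FreeGroup.of i) ∧
    ∀ k, k ≠ i → τ (FreeGroup.of k) = FreeGroup.of k

/-- The group `SAut (F_m)` generated by the transvections. -/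
def SAut (m : ℕ) : Subgroup (MulAut (FreeGroup (Fin m))) :=
  Subgroup.closure {τ | IsTransvection τ}

lemma SAut_eq (m : ℕ) : SAut m = SA m := by
  unfold SAut SA
  congr 1
  ext τ
  constructor
  · rintro ⟨i, j, hij, h | h, h'⟩
    · refine ⟨i, j, hij, Or.inl (Helper460_OutF.aut_ext fun k => ?_)⟩
      by_cases hk : k = i
      · subst hk; rw [h, ro_self hij]
      · rw [h' k hk, ro_ne j hk]
    · refine ⟨i, j, hij, Or.inr (Helper460_OutF.aut_ext fun k => ?_)⟩
      by_cases hk : k = i
      · subst hk; rw [h, la_self hij]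
      · rw [h' k hk, la_ne j hk]
  · rintro ⟨i, j, hij, rfl | rfl⟩
    · exact ⟨i, j, hij, Or.inl (ro_self hij), fun k hk => ro_ne j hk⟩
    · exact ⟨i, j, hij, Or.inr (la_self hij), fun k hk => la_ne j hk⟩

/-- Let `n ≥ 3` and `m ≥ 5`, where `n ≤ m`, or `n < binom ([(m - 1) / 2] - 5, 2)`, or `m ≥ 49` and
`n < binom (m - 7, 2)`. Let `Λ` be a residually finite group with the same finite quotients as
`SL (n, ℤ)`. If `Λ` is a quotient of `Aut (F_m)` or of `SAut (F_m)` then `m = n` and `Λ` is
isomorphic to `SL (n, ℤ)`. -/
theorem result : ∀ n m : ℕ, 3 ≤ n → 5 ≤ m →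
    (n ≤ m ∨ n < ((m - 1) / 2 - 5).choose 2 ∨ (49 ≤ m ∧ n < (m - 7).choose 2)) →
    ∀ (Λ : Type) [Group Λ],
    (∀ g : Λ, g ≠ 1 → ∃ H : Subgroup Λ, H.index ≠ 0 ∧ g ∉ H) →
    (∀ (Q : Type) [Group Q] [Finite Q],
      (∃ f : Λ →* Q, Function.Surjective f) ↔
      (∃ f : Matrix.SpecialLinearGroup (Fin n) ℤ →* Q, Function.Surjective f)) →
    ((∃ f : MulAut (FreeGroup (Fin m)) →* Λ, Function.Surjective f) ∨
      (∃ f : SAut m →* Λ, Function.Surjective f)) →
    m = n ∧ Nonempty (Λ ≃* Matrix.SpecialLinearGroup (Fin n) ℤ) := by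
  intro n m hn hm hb Λ _ hRF hq hf
  have hf' : ∃ f : SA m →* Λ, Function.Surjective f := by
    rcases hf with ⟨f, hf⟩ | hf
    · exact ⟨_, U181.PF.sg_surj hn (by omega) hq f hf⟩
    · rwa [SAut_eq] at hf
  obtain ⟨f, hf⟩ := hf'
  refine U181.PF.main hn hm ?_ Λ hRF hq f hf
  rcases hb with h | h | ⟨h1, h2⟩
  · exact Or.inl h
  · exact Or.inr (Or.inl h)
  · refine Or.inr (Or.inr ⟨by omega, ?_⟩)
    rwa [show m - 1 - 6 = m - 7 by omega]

end Pool.Agent.Results.MP_a2a22c_al.LargerDegrees
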