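import Pool.Agent.H673R4.LR.H

/-!
# Linear representations of the groups whose finite quotients are quotients of `SL (m, ℤ)`

Let `m ≥ 3` and let `Λ` be a finitely generated group such that every finite quotient of `Λ` is a
quotient of `SL (m, ℤ)`, for instance a group with the same finite quotients (the same profinite
completion) as `SL (m, ℤ)`. Let `K` be a field and `N` a natural number.

(1) If `K` has characteristic `p > 0`, then the images of all homomorphisms `Λ → GL_N(K)` are finite,
with at most `(N! p^N)^(m^2)` elements.
(2) If `N < m`, then the images of all homomorphisms `Λ → GL_N(K)` are finite, with at most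
`(N!)^(m^2)` elements, for all fields `K`.
(3) The traces of all homomorphisms `Λ → GL_N(K)` are algebraic over every subfield of `K`.
(4) There are only finitely many functions `Λ → K` of the form `g ↦ tr ρ(g)`, `ρ : Λ → GL_N(K)`.

Steps of the proof. (a) (`A`, `B`) In a representation of `SL (m, ℤ)` of dimension `N` over an
algebraically closed field, let `X`, `Y`, `H` be the images of `e_ij`, `e_kj`, `e_ik`. As `X` is central
in the group generated by them and `H Y = X Y H`, the eigenvalues of `Y` on an eigenspace of `X` are
permuted by multiplication with the eigenvalue of `X`, so the eigenvalues of `X` are roots of unity of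
order at most `N`, and in characteristic `p` the order of `X` divides `N! p^N`. By the congruence
subgroup property (Bass-Lazard-Serre, Mennicke; library file Helper460_CSP/Bls) the representation is
trivial on the congruence subgroup of level `N! p^N`. (b) (`D1`, `D2`) If `N < m` the upper unitriangular
matrices modulo the `p`-part of the level which are trivial modulo the rest act by a `p`-group, which
has nilpotency class smaller than `N ≤ m - 1`, so that an `(m - 1)`-fold commutator is trivial; hence the
level is `N!`, for all `p`. (c) (`C`) A finitely generated linear group embeds into `GL_N` of a finitely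
generated domain; finitely many elements are separated by a homomorphism into a finite field, whose
image is a finite quotient of `Λ`. (d) (`E`, `F`) If the trace `t` of an element in characteristic zero
were transcendental, some place of the field of fractions over the Gauss valuation of `ℚ(t)` for a large
prime `p` would give a representation in characteristic `p` with a transcendental trace, against (1).
(e) (`G`) The algebra generated by the coordinate functions on `Hom (Λ, GL_N(K))` is Noetherian, and by
(d) the trace of `g` is constant modulo each of its finitely many minimal primes.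
-/

set_option autoImplicit false

namespace Pool.Agent.Results.MP_a2a22c_al.LinearRepresentations

open Pool.Agent.H673R4.LR

/-- Linear representations of the finitely generated groups whose finite quotients are quotients of
`SL (m, ℤ)`. -/
theorem result : ∀ m : ℕ, 3 ≤ m → ∀ (Λ : Type) [Group Λ], Group.FG Λ →
    (∀ (Q : Type) [Group Q] [Finite Q], (∃ f : Λ →* Q, Function.Surjective f) →
      ∃ f : Matrix.SpecialLinearGroup (Fin m) ℤ →* Q, Function.Surjective f) →
    ∀ (K : Type) [Field K] (N : ℕ),
      (∀ p : ℕ, p.Prime → CharP K p → ∀ ρ : Λ →* Matrix.GeneralLinearGroup (Fin N) K,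
        (Set.range ρ).Finite ∧ (Set.range ρ).ncard ≤ (N.factorial * p ^ N) ^ (m ^ 2)) ∧
      (N < m → ∀ ρ : Λ →* Matrix.GeneralLinearGroup (Fin N) K,
        (Set.range ρ).Finite ∧ (Set.range ρ).ncard ≤ N.factorial ^ (m ^ 2)) ∧
      (∀ (k : Type) [Field k] [Algebra k K], ∀ ρ : Λ →* Matrix.GeneralLinearGroup (Fin N) K,
        ∀ g : Λ, IsAlgebraic k (ρ g : Matrix (Fin N) (Fin N) K).trace) ∧
      {χ : Λ → K | ∃ ρ : Λ →* Matrix.GeneralLinearGroup (Fin N) K,
        ∀ g, χ g = (ρ g : Matrix (Fin N) (Fin N) K).trace}.Finite := by
  intro m hm Λ _ hfg hq K _ N
  have hq' : QuotientsOf m Λ := hq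
  refine ⟨fun p hp hc ρ => ?_, fun hN ρ => ?_, fun k _ _ ρ g => trace_algebraic hm hq' ρ g,
    finite_characters hm hq' K N⟩
  · have : Fact p.Prime := ⟨hp⟩
    obtain ⟨h1, h2⟩ := char_p (p := p) hm hq' ρ
    have h1' : Finite (Set.range ρ) := h1
    exact ⟨Set.toFinite _, h2⟩
  · obtain ⟨h1, h2⟩ := small hm hN hq' ρ
    have h1' : Finite (Set.range ρ) := h1
    exact ⟨Set.toFinite _, h2⟩

end Pool.Agent.Results.MP_a2a22c_al.LinearRepresentations
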