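import Mathlib
import Pool.Agent.U943.PR.Main

/-!
# `SL (m, ℤ)` is profinitely rigid among the groups of matrices over commutative rings which contain
the elementary matrices

Let `m, n ≥ 3`, let `R` be a commutative ring and let `Λ` be a finitely generated residually finite
group with `E_n(R) ≤ Λ ≤ GL_n(R)`. If `Λ` has the same finite quotients as `SL (m, ℤ)` then `n = m`,
`R` is isomorphic to `ℤ` and `Λ` is isomorphic to `SL (m, ℤ)`.

Steps of the proof. (1) By the congruence subgroup property (library file Helper460_CSP/Bls) the
kernel of a surjection from `SL (m, ℤ)` onto a finite nonabelian simple group is the group of the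
matrices which are scalar modulo `p`, for a prime `p` (`Key`). (2) If `PSL (n, F)` is a quotient of
`SL (m, ℤ)` with kernel belonging to `p` and `F` has more than `m ^ 2 + 1` elements, then `F` has
characteristic `p`: otherwise the root subgroup `F` of `SL (n, F)` is diagonalizable in the adjoint
representation of `PSL (m, ℤ/p)`, and a torus permutes its nontrivial characters transitively
(`Char`). (3) For large `p` the orders give `n = m` and `|F| = p` (`Orders`). (4) It follows that all
quotients of `R` by primes containing a prime number are finite, that `R` has at most one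
homomorphism to the algebraic closure of `ℤ/p` for large `p`, therefore at most one homomorphism to
the algebraic closure of `ℚ`, and that there is a homomorphism `α : R → ℚ` such that a power of its
kernel is finite (`Alg`, `Fields`). (5) The congruence kernel of `α` maps trivially to the groups
`PSL (n, ℤ/p)`, since it is finite by nilpotent (`Filt`); `SL_n` of a subring of `ℚ` is generated by
elementary matrices and its finite quotients are images of `SL (n, ℤ)` (`Euclid`, `Lift`). Counting
the primes `p` with `PSL (n, ℤ/p) ≅ PSL (n, ℤ/ℓ)` shows that `ℓ` is not invertible in `α(R)`, so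
`α(R) = ℤ` and `Λ` maps onto `SL (n, ℤ)` (`Main`). (6) A surjection of a finitely generated
residually finite group onto a group with the same finite quotients is injective.
-/

set_option autoImplicit false

namespace Pool.Agent.Results.MP_a2a22c_al.MatrixGroupsOverRings

open Pool.Agent.U943.PR

/-- `SL (m, ℤ)` is profinitely rigid among the groups between `E_n(R)` and `GL_n(R)`, for all
commutative rings `R` and all `n ≥ 3`. -/
theorem result : ∀ m n : ℕ, 3 ≤ m → 3 ≤ n → ∀ (R : Type) [CommRing R]
    (Λ : Subgroup (Matrix.GeneralLinearGroup (Fin n) R)),
    (∀ i j : Fin n, i ≠ j → ∀ r : R, ∃ g ∈ Λ,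
      (g : Matrix (Fin n) (Fin n) R) = Matrix.transvection i j r) →
    Group.FG Λ →
    (∀ g : Λ, g ≠ 1 → ∃ H : Subgroup Λ, H.index ≠ 0 ∧ g ∉ H) →
    (∀ (Q : Type) [Group Q] [Finite Q],
      (∃ f : Λ →* Q, Function.Surjective f) ↔
      (∃ f : Matrix.SpecialLinearGroup (Fin m) ℤ →* Q, Function.Surjective f)) →
    n = m ∧ Nonempty (R ≃+* ℤ) ∧ Nonempty (Λ ≃* Matrix.SpecialLinearGroup (Fin m) ℤ) := by
  intro m n hm hn R _ Λ hE hfg hRF hq
  refine main hn hm (fun i j h r => ?_) hfg hRF hq
  obtain ⟨g, hg, hgr⟩ := hE i j h r
  have : eG h r = g := by
    apply Units.ext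
    rw [hgr]
    rfl
  rw [this]
  exact hg

end Pool.Agent.Results.MP_a2a22c_al.MatrixGroupsOverRings
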