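import Mathlib
import Pool.Agent.U801.NC.Comm

/-!
# `SL (m, ℤ)` is profinitely rigid among the groups of matrices over noncommutative rings which
contain the elementary matrices

Let `m, n ≥ 3`, let `R` be any associative ring with one and let `Λ` be a finitely generated
residually finite group with `E_n(R) ≤ Λ ≤ GL_n(R)` and with the same finite quotients as
`SL (m, ℤ)`.  Then `n` divides `m`, and `R` is isomorphic to `ℤ` and `Λ` to `SL (m, ℤ)` if `n = m` or
if `R` has a nonzero commutative quotient ring.

Steps of the proof.  (1) The finite index normal subgroups of `Λ` give two-sided ideals of finite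
index with intersection zero in `R` (`Final`).  (2) If `S` is a finite quotient ring of `R` then the
image of `Λ` in `GL_n(S)` is a quotient of `SL (m, ℤ)` which contains `E_n(S)`.  (3) A quotient of
`SL (m, ℤ)` of the form `SL (N, F)`, `F` a finite field, has `N = m` and `|F|` is prime (`Class`): the
elementary matrices of level `ℓ` are killed by the congruence subgroup property, the orders are
compared if `ℓ` is the characteristic of `F`, and otherwise the characters of the unipotent radical of
a maximal parabolic subgroup in the adjoint representation of the other group give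
`|F| ^ (N - 1) ≤ m ^ 2 + 1` and `ℓ ^ (m - 1) ≤ N ^ 2 + 1` (`Chars`).  (4) So `n k = m` for the simple
quotients `M_k(F)` of `S`; if `n = m` then `S` modulo its radical `J` is a product of prime fields of
different characteristics (`Ring2`).  (5) If `n = m` then `J / J ^ 2` is cyclic, since the level
`p` congruence subgroup of `SL (n, ℤ)` modulo the one of level `p ^ 2` has at most `p ^ (n ^ 2)` elements
and `2 n (n - 1) > n ^ 2` (`Ring3`); so `S` is commutative (`Ring4`).  (6) Therefore `R` is commutative if
`n = m`, and the theorem for commutative rings (`U943/PR/Main`) applies.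
-/

set_option autoImplicit false

namespace Pool.Agent.Results.MP_a2a22c_al.NoncommutativeRings

open Pool.Agent.U801.NC

/-- Let `m, n ≥ 3`, let `R` be any (not necessarily commutative) ring and let `Λ` be a finitely
generated residually finite group of invertible `n × n` matrices over `R` which contains all the
elementary matrices and has the same finite quotients as `SL (m, ℤ)`.  (1) `n` divides `m`.  (2) If the
matrix ring `M_k(F)`, `F` a finite field and `k ≥ 1`, is a quotient of `R`, then `n k = m`.  (3) If `n = m`,
or if there is a homomorphism from `R` to a nonzero commutative ring, then `n = m`, `R` is isomorphic to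
`ℤ` and `Λ` is isomorphic to `SL (m, ℤ)`. -/
theorem result : ∀ m n : ℕ, 3 ≤ m → 3 ≤ n → ∀ (R : Type) [Ring R]
    (Λ : Subgroup (Matrix (Fin n) (Fin n) R)ˣ),
    (∀ i j : Fin n, i ≠ j → ∀ r : R, ∃ g ∈ Λ,
      (g : Matrix (Fin n) (Fin n) R) = 1 + Matrix.single i j r) →
    Group.FG Λ →
    (∀ g : Λ, g ≠ 1 → ∃ H : Subgroup Λ, H.index ≠ 0 ∧ g ∉ H) →
    (∀ (Q : Type) [Group Q] [Finite Q],
      (∃ f : Λ →* Q, Function.Surjective f) ↔
      (∃ f : Matrix.SpecialLinearGroup (Fin m) ℤ →* Q, Function.Surjective f)) →
    n ∣ m ∧
    (∀ (F : Type) [Field F] [Finite F] (k : ℕ) (f : R →+* Matrix (Fin k) (Fin k) F), k ≠ 0 →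
      Function.Surjective f → n * k = m) ∧
    ((n = m ∨ ∃ (C : Type) (_ : CommRing C), Nontrivial C ∧ Nonempty (R →+* C)) →
      n = m ∧ Nonempty (R ≃+* ℤ) ∧ Nonempty (Λ ≃* Matrix.SpecialLinearGroup (Fin m) ℤ)) := by
  intro m n hm hn R _ Λ hE hfg hRF hq
  have hE' : HasEl Λ := by
    intro i j h r
    obtain ⟨g, hg, hgr⟩ := hE i j h r
    have : el h r = g := by
      apply Units.ext
      rw [hgr]
      rfl
    rw [this]
    exact hg
  refine ⟨rank_dvd hn hm hE' hRF hq, fun F _ _ k f hk hf =>
    matrix_quotients hn hm hE' hq k hk f hf, fun h => ?_⟩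
  have hnm : n = m := by
    rcases h with h | ⟨C, _, _, ⟨f⟩⟩
    · exact h
    · exact comm_quotient hn hm hE' hfg hq f
  subst hnm
  exact ⟨rfl, equal_rank hn hE' hfg hRF hq⟩

end Pool.Agent.Results.MP_a2a22c_al.NoncommutativeRings
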